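import Mathlib
import Pool.Agent.H66.L.S8.R774.ClStmt

/-! The pseudoinverse of an injective linear map, and derivatives of maps on a manifold expressed by means
of the derivative of an immersion. -/

set_option autoImplicit false
set_option linter.unusedSectionVars false

open Filter Topology
open scoped ContDiff Manifold

noncomputable section

namespace Pool.Agent.W5h63.AX

open Pool.Agent.R774.Cl

section

variable {E F : Type*} [NormedAddCommGroup E] [InnerProductSpace ℝ E] [FiniteDimensional ℝ E]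
  [NormedAddCommGroup F] [InnerProductSpace ℝ F] [FiniteDimensional ℝ F]

instance instComplete₁ : CompleteSpace E := FiniteDimensional.complete ℝ E

/-- the Gram operator -/
def gram (J : E →L[ℝ] F) : E →L[ℝ] E := (ContinuousLinearMap.adjoint J).comp J

/-- the pseudoinverse `(J* J)⁻¹ J*` of an injective linear map -/
def pinv (J : E →L[ℝ] F) : F →L[ℝ] E :=
  (Ring.inverse (gram J)).comp (ContinuousLinearMap.adjoint J)

lemma gram_unit {J : E →L[ℝ] F} (hJ : ∀ v, J v = 0 → v = 0) : IsUnit (gram J) := by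
  have h1 : Function.Injective (gram J) := by
    intro v w hvw
    rw [← sub_eq_zero]
    apply hJ
    have h2 : gram J (v - w) = 0 := by rw [map_sub, hvw, sub_self]
    have h3 : inner ℝ (J (v - w)) (J (v - w)) = (0 : ℝ) := by
      rw [← ContinuousLinearMap.adjoint_inner_left]
      show inner ℝ (gram J (v - w)) (v - w) = (0 : ℝ)
      rw [h2, inner_zero_left]
    exact inner_self_eq_zero.1 h3
  have h2 : IsUnit (gram J : E →ₗ[ℝ] E) :=
    (LinearMap.isUnit_iff_ker_eq_bot _).2 (LinearMap.ker_eq_bot.2 h1)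
  obtain ⟨u, hu⟩ := h2
  refine ⟨⟨gram J, LinearMap.toContinuousLinearMap (↑u⁻¹ : E →ₗ[ℝ] E), ?_, ?_⟩, rfl⟩
  · ext v
    have h3 := LinearMap.congr_fun (u.mul_inv) v
    rw [hu] at h3
    exact h3
  · ext v
    have h3 := LinearMap.congr_fun (u.inv_mul) v
    rw [hu] at h3
    exact h3

lemma pinv_left {J : E →L[ℝ] F} (hJ : ∀ v, J v = 0 → v = 0) (v : E) : pinv J (J v) = v := by
  have h1 := Ring.inverse_mul_cancel _ (gram_unit hJ)
  exact DFunLike.congr_fun h1 v

lemma pinv_comp {J : E →L[ℝ] F} {T : E →L[ℝ] E} (hJ : ∀ v, J v = 0 → v = 0)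
    (hT : ∀ v, T v = 0 → v = 0) : T.comp (pinv (J.comp T)) = pinv J := by
  have hJT : ∀ v, (J.comp T) v = 0 → v = 0 := fun v hv => hT v (hJ _ hv)
  have hTu : IsUnit (T : E →ₗ[ℝ] E) :=
    (LinearMap.isUnit_iff_ker_eq_bot _).2 (LinearMap.ker_eq_bot.2 (by
      intro v w hvw
      rw [← sub_eq_zero]
      apply hT
      rw [map_sub]
      exact sub_eq_zero.2 hvw))
  have hTs : Function.Surjective T := by
    have := LinearMap.range_eq_top.1 ((LinearMap.isUnit_iff_range_eq_top _).1 hTu)
    exact this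
  have hTa : ∀ v, ContinuousLinearMap.adjoint T v = 0 → v = 0 := by
    intro v hv
    obtain ⟨w, rfl⟩ := hTs v
    have h3 : inner ℝ (T w) (T w) = (0 : ℝ) := by
      rw [← ContinuousLinearMap.adjoint_inner_left, hv, inner_zero_left]
    exact inner_self_eq_zero.1 h3
  have h1 : ∀ w, gram J (T (pinv (J.comp T) w)) = ContinuousLinearMap.adjoint J w := by
    intro w
    have h2 := DFunLike.congr_fun (Ring.mul_inverse_cancel _ (gram_unit hJT))
      (ContinuousLinearMap.adjoint (J.comp T) w)
    have h3 : gram (J.comp T) (pinv (J.comp T) w) = ContinuousLinearMap.adjoint (J.comp T) w := h2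
    have h4 : ContinuousLinearMap.adjoint T (gram J (T (pinv (J.comp T) w)) -
        ContinuousLinearMap.adjoint J w) = 0 := by
      rw [map_sub, sub_eq_zero]
      have h5 : ContinuousLinearMap.adjoint (J.comp T) =
        (ContinuousLinearMap.adjoint T).comp (ContinuousLinearMap.adjoint J) :=
          ContinuousLinearMap.adjoint_comp J T
      rw [h5] at h3
      have h6 : gram (J.comp T) (pinv (J.comp T) w) = ContinuousLinearMap.adjoint T
          (gram J (T (pinv (J.comp T) w))) := by
        show ContinuousLinearMap.adjoint (J.comp T) (J (T (pinv (J.comp T) w))) = _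
        rw [h5]
        rfl
      rw [← h6, h3]
      rfl
    exact sub_eq_zero.1 (hTa _ h4)
  ext w
  have h2 := DFunLike.congr_fun (Ring.inverse_mul_cancel _ (gram_unit hJ))
    (T (pinv (J.comp T) w))
  have h3 : Ring.inverse (gram J) (gram J (T (pinv (J.comp T) w))) = T (pinv (J.comp T) w) := h2
  rw [h1] at h3
  exact h3.symm

lemma pinv_cont {J : E →L[ℝ] F} (hJ : ∀ v, J v = 0 → v = 0) : ContinuousAt (pinv (E := E) (F := F)) J := by
  have h1 : Continuous fun J : E →L[ℝ] F => ContinuousLinearMap.adjoint J :=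
    (ContinuousLinearMap.adjoint (𝕜 := ℝ) (E := E) (F := F)).continuous
  have h2 : Continuous fun J : E →L[ℝ] F => gram J := h1.clm_comp continuous_id
  obtain ⟨u, hu⟩ := gram_unit hJ
  have h3 : ContinuousAt (fun J : E →L[ℝ] F => Ring.inverse (gram J)) J := by
    have h4 : ContinuousAt Ring.inverse (gram J) := by
      rw [← hu]
      exact NormedRing.inverse_continuousAt u
    exact ContinuousAt.comp (g := Ring.inverse) h4 h2.continuousAt
  exact h3.clm_comp h1.continuousAt

end

section

open Pool.Agent.H718R2.G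

universe u

variable {n m : ℕ} {N : Type u} [TopologicalSpace N] [ChartedSpace (V n) N]
  {F : Type*} [NormedAddCommGroup F] [NormedSpace ℝ F]

/-- `e` is a `C¹` immersion. -/
structure Imm (n : ℕ) {m : ℕ} {N : Type u} [TopologicalSpace N] [ChartedSpace (V n) N]
    (e : N → V m) : Prop where
  smooth : ContMDiff (𝓡 n) (𝓡 m) 1 e
  inj : ∀ x v, dr (V n) (V m) e x v = 0 → v = 0

/-- the derivative of `g` in terms of the derivative of the immersion `e` -/
def tr (e : N → V m) (g : N → F) (x : N) : V m →L[ℝ] F :=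
  (dr (V n) F g x).comp (pinv (dr (V n) (V m) e x))

lemma tr_apply {e : N → V m} (he : Imm n e) (g : N → F) (x : N) (v : V n) :
    tr (n := n) e g x (dr (V n) (V m) e x v) = dr (V n) F g x v := by
  show dr (V n) F g x (pinv (dr (V n) (V m) e x) (dr (V n) (V m) e x v)) = _
  rw [pinv_left (he.inj x)]

lemma tr_cont [IsManifold (𝓡 n) ∞ N] {e : N → V m} (he : Imm n e) {g : N → F}
    (hg : ContMDiff (𝓡 n) 𝓘(ℝ, F) 1 g) : Continuous (tr (n := n) e g) := by
  rw [continuous_iff_continuousAt]
  intro x₀
  have hx₀ := mem_extChartAt_source (I := 𝓡 n) x₀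
  have h1 := contAt_J he.smooth hx₀
  have h2 := contAt_J hg hx₀
  have hJinj : ∀ y ∈ (extChartAt (𝓡 n) x₀).source, ∀ z,
      fderiv ℝ (fun p => e ((extChartAt (𝓡 n) x₀).symm p)) (extChartAt (𝓡 n) x₀ y) z = 0 →
        z = 0 := by
    intro y hy z hz
    obtain ⟨v, rfl⟩ := th_surj hy z
    rw [chart_comp_e he.smooth hy] at hz
    rw [he.inj y v hz, map_zero]
  have h3 : ContinuousAt (fun y => (fderiv ℝ (fun p => g ((extChartAt (𝓡 n) x₀).symm p))
      (extChartAt (𝓡 n) x₀ y)).comp (pinv (fderiv ℝ (fun p => e ((extChartAt (𝓡 n) x₀).symm p))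
      (extChartAt (𝓡 n) x₀ y)))) x₀ := by
    refine ContinuousAt.clm_comp h2 ?_
    exact ContinuousAt.comp (g := pinv (E := V n) (F := V m)) (pinv_cont (hJinj x₀ hx₀)) h1
  refine h3.congr ?_
  filter_upwards [(isOpen_extChartAt_source x₀).mem_nhds hx₀] with y hy
  have e1 : dr (V n) (V m) e y = (fderiv ℝ (fun p => e ((extChartAt (𝓡 n) x₀).symm p))
      (extChartAt (𝓡 n) x₀ y)).comp (th x₀ y) := by
    ext v
    rw [ContinuousLinearMap.comp_apply, chart_comp_e he.smooth hy]
  have e2 : dr (V n) F g y = (fderiv ℝ (fun p => g ((extChartAt (𝓡 n) x₀).symm p))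
      (extChartAt (𝓡 n) x₀ y)).comp (th x₀ y) := by
    ext v
    rw [ContinuousLinearMap.comp_apply, chart_comp_e hg hy]
  unfold tr
  rw [e1, e2, ContinuousLinearMap.comp_assoc, pinv_comp (hJinj y hy) fun v hv => th_inj hy hv]

/-- the orthogonal projection to the image of the tangent space is the identity there -/
lemma tr_self {e : N → V m} (he : Imm n e) {x : N} {w : V m} :
    tr (n := n) e e x w = w ↔ ∃ v, dr (V n) (V m) e x v = w := by
  constructor
  · intro h
    exact ⟨pinv (dr (V n) (V m) e x) w, h⟩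
  · rintro ⟨v, rfl⟩
    exact tr_apply he e x v

end

end Pool.Agent.W5h63.AX
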