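import Mathlib
import Pool.Agent.H66.L.T9f66d723.W5h63.AX.Pinv

/-! A strictly increasing quadratic form on a compact invariant set: exponential estimates. -/

set_option autoImplicit false
set_option linter.unusedSectionVars false

open Filter Topology Set Metric
open scoped ContDiff Manifold

noncomputable section

namespace Pool.Agent.W5h63.AX

open Pool.Agent.R774.Cl Pool.Agent.R774.ClStmt Pool.Agent.H718R2.G

universe u

section real

lemma seq_decay {W M : ℕ → ℝ} {c C : ℝ} (hc : 0 < c) (hC : c < C)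
    (h1 : ∀ k, W (k + 1) ≤ W k - c * M k) (h2 : ∀ k, W k ≤ C * M k) (h0 : ∀ k, 0 ≤ W k) (k : ℕ) :
    M k ≤ C / c * (1 - c / C) ^ k * M 0 := by
  have hC0 : 0 < C := hc.trans hC
  have hρ : 0 ≤ 1 - c / C := by
    rw [sub_nonneg, div_le_one hC0]
    exact hC.le
  have h3 : ∀ k, W k ≤ (1 - c / C) ^ k * W 0 := by
    intro k
    induction k with
    | zero => rw [pow_zero, one_mul]
    | succ k ih =>
      have h4 : W (k + 1) ≤ (1 - c / C) * W k := by
        have h5 : c / C * W k ≤ c * M k := by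
          rw [div_mul_eq_mul_div, div_le_iff₀ hC0]
          nlinarith [h2 k]
        have := h1 k
        linarith
      calc W (k + 1) ≤ (1 - c / C) * W k := h4
        _ ≤ (1 - c / C) * ((1 - c / C) ^ k * W 0) := mul_le_mul_of_nonneg_left ih hρ
        _ = _ := by rw [pow_succ]; ring
  have h4 : c * M k ≤ (1 - c / C) ^ k * (C * M 0) := by
    have h5 := h1 k
    have h6 := h0 (k + 1)
    have h7 := h3 k
    have h8 : (1 - c / C) ^ k * W 0 ≤ (1 - c / C) ^ k * (C * M 0) :=
      mul_le_mul_of_nonneg_left (h2 0) (pow_nonneg hρ k)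
    linarith
  have h5 : C / c * (1 - c / C) ^ k * M 0 = ((1 - c / C) ^ k * (C * M 0)) / c := by
    field_simp
  rw [h5, le_div_iff₀ hc, mul_comm]
  exact h4

end real

variable {n m : ℕ} {N : Type u} [TopologicalSpace N] [ChartedSpace (V n) N]

/-- The quadratic form `b` increases strictly under the derivative of `F` on the closed invariant set
`K`. -/
structure Cone (n : ℕ) {m : ℕ} {N : Type u} [TopologicalSpace N] [ChartedSpace (V n) N]
    (F : N → N) (K : Set N) (e : N → V m) (b : N → V m →L[ℝ] V m →L[ℝ] ℝ) : Prop where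
  smooth : ContMDiff (𝓡 n) (𝓡 n) 1 F
  imm : Imm n e
  closed : IsClosed K
  inv : ∀ x ∈ K, F x ∈ K
  cont : ContinuousOn b K
  incr : ∀ x ∈ K, ∀ v : V n, v ≠ 0 → quad e b x v < quad e b (F x) (dr (V n) (V n) F x v)

lemma cmd_iter {F : N → N} (hF : ContMDiff (𝓡 n) (𝓡 n) 1 F) (k : ℕ) :
    ContMDiff (𝓡 n) (𝓡 n) 1 F^[k] := by
  induction k with
  | zero => exact contMDiff_id
  | succ k ih =>
    rw [Function.iterate_succ']
    exact hF.comp ih

lemma iter_mem {F : N → N} {K : Set N} (h : ∀ x ∈ K, F x ∈ K) {x : N} (hx : x ∈ K) (k : ℕ) :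
    F^[k] x ∈ K := by
  induction k with
  | zero => exact hx
  | succ k ih =>
    rw [Function.iterate_succ_apply']
    exact h _ ih

variable [IsManifold (𝓡 n) ∞ N]

lemma dr_iter {F : N → N} (hF : ContMDiff (𝓡 n) (𝓡 n) 1 F) (k : ℕ) (x : N) (v : V n) :
    dr (V n) (V n) F^[k + 1] x v = dr (V n) (V n) F (F^[k] x) (dr (V n) (V n) F^[k] x v) := by
  have h1 : F^[k + 1] = fun y => F (F^[k] y) := by
    rw [Function.iterate_succ']
    rfl
  rw [h1, dr_comp (E₁ := V n) (E₂ := V n) (E₃ := V n) (hF.mdifferentiableAt one_ne)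
    ((cmd_iter hF k).mdifferentiableAt one_ne)]
  rfl

lemma dr_iter_e {F : N → N} (hF : ContMDiff (𝓡 n) (𝓡 n) 1 F) {e : N → V m}
    (he : ContMDiff (𝓡 n) (𝓡 m) 1 e) (k : ℕ) (x : N) (v : V n) :
    dr (V n) (V m) (fun y => e (F^[k] y)) x v =
      dr (V n) (V m) e (F^[k] x) (dr (V n) (V n) F^[k] x v) := by
  rw [dr_comp (E₁ := V n) (E₂ := V n) (E₃ := V m) (he.mdifferentiableAt one_ne)
    ((cmd_iter hF k).mdifferentiableAt one_ne)]
  rfl

lemma dr_id (x : N) (v : V n) : dr (V n) (V n) (fun y : N => y) x v = v := by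
  have h1 : dr (V n) (V n) (fun y : N => y) x = ContinuousLinearMap.id ℝ (V n) :=
    mfderiv_id
  rw [h1]
  rfl

section

variable [CompactSpace N]

/-- unit vectors over `K` form a compact set -/
lemma sph_compact {e : N → V m} (he : Imm n e) {K : Set N} (hK : IsClosed K) :
    IsCompact {p : N × V m | p.1 ∈ K ∧ ‖p.2‖ = 1 ∧ tr (n := n) e e p.1 p.2 = p.2} := by
  have h1 : IsCompact (K ×ˢ sphere (0 : V m) 1) := hK.isCompact.prod (isCompact_sphere _ _)
  refine h1.of_isClosed_subset ?_ ?_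
  · refine IsClosed.and (hK.preimage continuous_fst) (IsClosed.and ?_ ?_)
    · exact isClosed_eq continuous_snd.norm continuous_const
    · refine isClosed_eq ?_ continuous_snd
      exact ((tr_cont he he.smooth).comp continuous_fst).clm_apply continuous_snd
  · rintro ⟨x, w⟩ ⟨h1, h2, -⟩
    exact ⟨h1, by simpa using h2⟩

/-- a function which is homogeneous of degree two and positive is bounded from below -/
lemma hom_pos {e : N → V m} (he : Imm n e) {K : Set N} (hK : IsClosed K) {Ψ : N × V m → ℝ}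
    (hc : ContinuousOn Ψ {p | p.1 ∈ K}) (hh : ∀ x w (t : ℝ), Ψ (x, t • w) = t ^ 2 * Ψ (x, w))
    (hp : ∀ x ∈ K, ∀ v : V n, v ≠ 0 → 0 < Ψ (x, dr (V n) (V m) e x v)) :
    ∃ c : ℝ, 0 < c ∧ ∀ x ∈ K, ∀ v : V n, c * ‖dr (V n) (V m) e x v‖ ^ 2 ≤
      Ψ (x, dr (V n) (V m) e x v) := by
  obtain ⟨c, hc0, hcb⟩ := (sph_compact he hK).exists_forall_le' (hc.mono fun p hp => hp.1)
    (a := 0) (by
      rintro ⟨x, w⟩ ⟨h1, h2, h3⟩
      obtain ⟨v, hv'⟩ := (tr_self he).1 h3
      have hv'' : dr (V n) (V m) e x v = w := hv'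
      rw [← hv'']
      refine hp x h1 v fun hv => ?_
      rw [hv, map_zero] at hv''
      rw [← hv''] at h2
      simp at h2)
  refine ⟨c, hc0, fun x hx v => ?_⟩
  by_cases hv : dr (V n) (V m) e x v = 0
  · rw [hv]
    have h1 := hh x 0 0
    rw [zero_smul] at h1
    rw [h1]
    simp
  · have hn : ‖dr (V n) (V m) e x v‖ ≠ 0 := norm_ne_zero_iff.2 hv
    have h1 := hcb (x, ‖dr (V n) (V m) e x v‖⁻¹ • dr (V n) (V m) e x v) ⟨hx, by
      show ‖‖dr (V n) (V m) e x v‖⁻¹ • dr (V n) (V m) e x v‖ = 1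
      rw [norm_smul, norm_inv, norm_norm, inv_mul_cancel₀ hn], by
      show tr (n := n) e e x (‖dr (V n) (V m) e x v‖⁻¹ • dr (V n) (V m) e x v) = _
      rw [map_smul, tr_apply he]⟩
    rw [hh, inv_pow] at h1
    have hn2 : 0 < ‖dr (V n) (V m) e x v‖ ^ 2 := by positivity
    rw [← div_eq_inv_mul, le_div_iff₀ hn2] at h1
    exact h1

lemma hom_bdd {e : N → V m} (he : Imm n e) {K : Set N} (hK : IsClosed K) {Ψ : N × V m → ℝ}
    (hc : ContinuousOn Ψ {p | p.1 ∈ K}) (hh : ∀ x w (t : ℝ), Ψ (x, t • w) = t ^ 2 * Ψ (x, w)) :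
    ∃ C : ℝ, ∀ x ∈ K, ∀ v : V n, |Ψ (x, dr (V n) (V m) e x v)| ≤
      C * ‖dr (V n) (V m) e x v‖ ^ 2 := by
  obtain ⟨C, hC⟩ := (sph_compact he hK).exists_bound_of_continuousOn
    (hc.mono fun p hp => hp.1)
  refine ⟨C, fun x hx v => ?_⟩
  by_cases hv : dr (V n) (V m) e x v = 0
  · rw [hv]
    have h1 := hh x 0 0
    rw [zero_smul] at h1
    rw [h1]
    simp
  · have hn : ‖dr (V n) (V m) e x v‖ ≠ 0 := norm_ne_zero_iff.2 hv
    have h1 := hC (x, ‖dr (V n) (V m) e x v‖⁻¹ • dr (V n) (V m) e x v) ⟨hx, by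
      show ‖‖dr (V n) (V m) e x v‖⁻¹ • dr (V n) (V m) e x v‖ = 1
      rw [norm_smul, norm_inv, norm_norm, inv_mul_cancel₀ hn], by
      show tr (n := n) e e x (‖dr (V n) (V m) e x v‖⁻¹ • dr (V n) (V m) e x v) = _
      rw [map_smul, tr_apply he]⟩
    rw [hh, inv_pow, Real.norm_eq_abs, abs_mul, abs_of_nonneg (by positivity)] at h1
    have hn2 : 0 < ‖dr (V n) (V m) e x v‖ ^ 2 := by positivity
    rw [← div_eq_inv_mul, div_le_iff₀ hn2] at h1
    exact h1

variable {F : N → N} {K : Set N} {e : N → V m} {b : N → V m →L[ℝ] V m →L[ℝ] ℝ}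

lemma Cone.cont_iter (h : Cone n F K e b) (k : ℕ) : ContinuousOn (fun p : N × V m =>
    b (F^[k] p.1) (tr (n := n) e (fun y => e (F^[k] y)) p.1 p.2)
      (tr (n := n) e (fun y => e (F^[k] y)) p.1 p.2)) {p | p.1 ∈ K} := by
  have h1 : ContinuousOn (fun p : N × V m => b (F^[k] p.1)) {p | p.1 ∈ K} := by
    refine h.cont.comp ((cmd_iter h.smooth k).continuous.comp continuous_fst).continuousOn ?_
    intro p hp
    exact iter_mem h.inv hp k
  have h2 : Continuous fun p : N × V m => tr (n := n) e (fun y => e (F^[k] y)) p.1 p.2 :=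
    ((tr_cont h.imm (h.imm.smooth.comp (cmd_iter h.smooth k))).comp continuous_fst).clm_apply
      continuous_snd
  exact (h1.clm_apply h2.continuousOn).clm_apply h2.continuousOn

lemma Cone.quad_iter (h : Cone n F K e b) (k : ℕ) (x : N) (v : V n) :
    b (F^[k] x) (tr (n := n) e (fun y => e (F^[k] y)) x (dr (V n) (V m) e x v))
      (tr (n := n) e (fun y => e (F^[k] y)) x (dr (V n) (V m) e x v)) =
      quad e b (F^[k] x) (dr (V n) (V n) F^[k] x v) := by
  rw [tr_apply h.imm, dr_iter_e h.smooth h.imm.smooth]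
  rfl

lemma Cone.consts (h : Cone n F K e b) : ∃ c C : ℝ, 0 < c ∧ c < C ∧ ∀ x ∈ K, ∀ v : V n,
    c * ‖dr (V n) (V m) e x v‖ ^ 2 ≤
      quad e b (F x) (dr (V n) (V n) F x v) - quad e b x v ∧
    |quad e b x v| ≤ C * ‖dr (V n) (V m) e x v‖ ^ 2 := by
  have h0 := h.cont_iter 0
  have h1 := h.cont_iter 1
  obtain ⟨c, hc, hcb⟩ := hom_pos h.imm h.closed (h1.sub h0) (by
    intro x w t
    simp only [Pi.sub_apply, map_smul, smul_apply, smul_eq_mul]
    ring) (by
    intro x hx v hv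
    rw [Pi.sub_apply]
    have e1 := h.quad_iter 1 x v
    have e0 := h.quad_iter 0 x v
    simp only [] at e1 e0 ⊢
    rw [e1, e0, sub_pos]
    have e3 : dr (V n) (V n) F^[0] x v = v := dr_id x v
    rw [e3]
    exact h.incr x hx v hv)
  obtain ⟨C, hC⟩ := hom_bdd h.imm h.closed h0 (by
    intro x w t
    simp only [map_smul, smul_apply, smul_eq_mul]
    ring)
  refine ⟨c, max C (c + 1), hc, lt_of_lt_of_le (lt_add_one c) (le_max_right _ _),
    fun x hx v => ⟨?_, ?_⟩⟩
  · have h2 := hcb x hx v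
    rw [Pi.sub_apply] at h2
    have e1 := h.quad_iter 1 x v
    have e0 := h.quad_iter 0 x v
    have e3 : dr (V n) (V n) F^[0] x v = v := dr_id x v
    rw [e3] at e0
    simp only [] at e1 e0 h2
    rw [e1, e0] at h2
    exact h2
  · have h2 := hC x hx v
    have e0 := h.quad_iter 0 x v
    have e3 : dr (V n) (V n) F^[0] x v = v := dr_id x v
    rw [e3] at e0
    simp only [] at e0 h2
    rw [e0] at h2
    exact h2.trans (mul_le_mul_of_nonneg_right (le_max_left _ _) (sq_nonneg _))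

/-- the tangent vectors at `x` which are contracted by the iterates of `F` -/
def Est (e : N → V m) (F : N → N) (x : N) : Submodule ℝ (V n) where
  carrier := {v | Tendsto (fun k : ℕ => dr (V n) (V m) (fun y => e (F^[k] y)) x v) atTop (𝓝 0)}
  add_mem' := by
    intro v w hv hw
    have h1 := Tendsto.add hv hw
    rw [add_zero] at h1
    refine h1.congr fun k => ?_
    exact (map_add (dr (V n) (V m) (fun y => e (F^[k] y)) x) v w).symm
  zero_mem' := by
    show Tendsto (fun k : ℕ => dr (V n) (V m) (fun y => e (F^[k] y)) x 0) atTop (𝓝 0)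
    simp only [map_zero]
    exact tendsto_const_nhds
  smul_mem' := by
    intro c v hv
    have h1 := Tendsto.const_smul hv c
    rw [smul_zero] at h1
    refine h1.congr fun k => ?_
    exact (map_smul (dr (V n) (V m) (fun y => e (F^[k] y)) x) c v).symm

lemma Cone.mono (h : Cone n F K e b) {x : N} (hx : x ∈ K) (v : V n) :
    Monotone fun k : ℕ => quad e b (F^[k] x) (dr (V n) (V n) F^[k] x v) := by
  refine monotone_nat_of_le_succ fun k => ?_
  rw [dr_iter h.smooth, Function.iterate_succ_apply']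
  by_cases h0 : dr (V n) (V n) F^[k] x v = 0
  · rw [h0, map_zero]
    unfold quad
    simp
  · exact (h.incr _ (iter_mem h.inv hx k) _ h0).le

lemma Cone.mem_Est (h : Cone n F K e b) {x : N} (hx : x ∈ K) {v : V n} :
    v ∈ Est e F x ↔ ∀ k : ℕ, quad e b (F^[k] x) (dr (V n) (V n) F^[k] x v) ≤ 0 := by
  obtain ⟨c, C, hc, hC, hcC⟩ := h.consts
  constructor
  · intro hv k
    have h1 : Tendsto (fun k : ℕ => quad e b (F^[k] x) (dr (V n) (V n) F^[k] x v)) atTop
        (𝓝 0) := by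
      have hv' : Tendsto (fun k : ℕ => dr (V n) (V m) (fun y => e (F^[k] y)) x v) atTop
        (𝓝 0) := hv
      have h2 : Tendsto (fun k : ℕ => C * ‖dr (V n) (V m) (fun y => e (F^[k] y)) x v‖ ^ 2)
          atTop (𝓝 (C * ‖(0 : V m)‖ ^ 2)) := (hv'.norm.pow 2).const_mul C
      rw [norm_zero] at h2
      simp only [ne_eq, OfNat.ofNat_ne_zero, not_false_eq_true, zero_pow, mul_zero] at h2
      refine squeeze_zero_norm (fun k => ?_) h2
      rw [Real.norm_eq_abs, dr_iter_e h.smooth h.imm.smooth]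
      exact (hcC _ (iter_mem h.inv hx k) _).2
    exact (h.mono hx v).ge_of_tendsto h1 k
  · intro hv
    have h1 := seq_decay (W := fun k : ℕ => - quad e b (F^[k] x) (dr (V n) (V n) F^[k] x v))
      (M := fun k : ℕ => ‖dr (V n) (V m) (fun y => e (F^[k] y)) x v‖ ^ 2) hc hC (fun k => by
        have h2 := (hcC _ (iter_mem h.inv hx k) (dr (V n) (V n) F^[k] x v)).1
        rw [dr_iter h.smooth, Function.iterate_succ_apply', dr_iter_e h.smooth h.imm.smooth]
        linarith) (fun k => by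
        have h2 := (hcC _ (iter_mem h.inv hx k) (dr (V n) (V n) F^[k] x v)).2
        rw [dr_iter_e h.smooth h.imm.smooth]
        exact (neg_le_abs _).trans h2) (fun k => by
        linarith [hv k])
    have hρ0 : 0 ≤ 1 - c / C := by
      rw [sub_nonneg, div_le_one (hc.trans hC)]
      exact hC.le
    have hρ1 : 1 - c / C < 1 := by
      have := div_pos hc (hc.trans hC)
      linarith
    have h3 : Tendsto (fun k : ℕ => C / c * (1 - c / C) ^ k *
        ‖dr (V n) (V m) (fun y => e (F^[0] y)) x v‖ ^ 2) atTop (𝓝 0) := by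
      have := ((tendsto_pow_atTop_nhds_zero_of_lt_one hρ0 hρ1).const_mul (C / c)).mul_const
        (‖dr (V n) (V m) (fun y => e (F^[0] y)) x v‖ ^ 2)
      rwa [mul_zero, zero_mul] at this
    have h4 : Tendsto (fun k : ℕ => ‖dr (V n) (V m) (fun y => e (F^[k] y)) x v‖ ^ 2) atTop
        (𝓝 0) := squeeze_zero (fun k => sq_nonneg _) h1 h3
    have h5 : Tendsto (fun k : ℕ => ‖dr (V n) (V m) (fun y => e (F^[k] y)) x v‖) atTop
        (𝓝 0) := by
      have h6 := h4.sqrt
      rw [Real.sqrt_zero] at h6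
      refine h6.congr fun k => ?_
      rw [Real.sqrt_sq (norm_nonneg _)]
    exact tendsto_zero_iff_norm_tendsto_zero.2 h5

lemma Cone.decay (h : Cone n F K e b) : ∃ A μ : ℝ, 0 < A ∧ 0 < μ ∧ μ < 1 ∧
    ∀ x ∈ K, ∀ v ∈ Est (n := n) e F x, ∀ k : ℕ,
      ‖dr (V n) (V m) (fun y => e (F^[k] y)) x v‖ ≤ A * μ ^ k * ‖dr (V n) (V m) e x v‖ := by
  obtain ⟨c, C, hc, hC, hcC⟩ := h.consts
  have hC0 := hc.trans hC
  have hρ0 : 0 < 1 - c / C := by
    rw [sub_pos, div_lt_one hC0]
    exact hC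
  have hρ1 : 1 - c / C < 1 := by
    have := div_pos hc hC0
    linarith
  refine ⟨Real.sqrt (C / c), Real.sqrt (1 - c / C), Real.sqrt_pos.2 (div_pos hC0 hc),
    Real.sqrt_pos.2 hρ0, by rw [Real.sqrt_lt' one_pos, one_pow]; exact hρ1, ?_⟩
  intro x hx v hv k
  have hv' := (h.mem_Est hx).1 hv
  have h1 := seq_decay (W := fun k : ℕ => - quad e b (F^[k] x) (dr (V n) (V n) F^[k] x v))
    (M := fun k : ℕ => ‖dr (V n) (V m) (fun y => e (F^[k] y)) x v‖ ^ 2) hc hC (fun k => by
      have h2 := (hcC _ (iter_mem h.inv hx k) (dr (V n) (V n) F^[k] x v)).1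
      rw [dr_iter h.smooth, Function.iterate_succ_apply', dr_iter_e h.smooth h.imm.smooth]
      linarith) (fun k => by
      have h2 := (hcC _ (iter_mem h.inv hx k) (dr (V n) (V n) F^[k] x v)).2
      rw [dr_iter_e h.smooth h.imm.smooth]
      exact (neg_le_abs _).trans h2) (fun k => by
      linarith [hv' k]) k
  have h2 : ‖dr (V n) (V m) (fun y => e (F^[k] y)) x v‖ ^ 2 ≤
      (Real.sqrt (C / c) * Real.sqrt (1 - c / C) ^ k * ‖dr (V n) (V m) e x v‖) ^ 2 := by
    rw [mul_pow, mul_pow, Real.sq_sqrt (div_pos hC0 hc).le, ← pow_mul, mul_comm k 2, pow_mul,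
      Real.sq_sqrt hρ0.le]
    exact h1
  exact (abs_le_of_sq_le_sq' h2 (by positivity)).2

end

end Pool.Agent.W5h63.AX
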