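import Mathlib
import Pool.Agent.H66.L.T9f66d723.W5h63.AX.Decay
import Pool.Agent.H66.L.S8.R775.HL.Lin

/-! The splitting of a hyperbolic linear map. -/

set_option autoImplicit false
set_option linter.unusedSectionVars false

open Polynomial Filter Topology

noncomputable section

namespace Pool.Agent.W5h63.AX

open Pool.Agent.R775.HL

/-- the roots of an irreducible real polynomial have the same modulus -/
lemma irred_roots {p : ℝ[X]} (hp : Irreducible p) {z w : ℂ}
    (hz : (p.map (algebraMap ℝ ℂ)).IsRoot z) (hw : (p.map (algebraMap ℝ ℂ)).IsRoot w) :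
    ‖z‖ = ‖w‖ := by
  have hz' : aeval z p = 0 := by rwa [IsRoot.def, eval_map_algebraMap] at hz
  have hw' : aeval w p = 0 := by rwa [IsRoot.def, eval_map_algebraMap] at hw
  -- a divisor of p of positive degree is an associate
  have key : ∀ q : ℝ[X], q ∣ p → ¬ IsUnit q → aeval w q = 0 := by
    intro q hq hqu
    obtain ⟨c, hc⟩ := hq
    have hcu : IsUnit c := (hp.isUnit_or_isUnit hc).resolve_left hqu
    have h1 := congrArg (aeval w) hc
    rw [hw', map_mul] at h1
    rcases mul_eq_zero.1 h1.symm with h | h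
    · exact h
    · have h2 : IsUnit (aeval w c) := hcu.map (aeval w)
      rw [h] at h2
      exact absurd h2 not_isUnit_zero
  by_cases him : z.im = 0
  · have hzr : z = (z.re : ℂ) := by
      apply Complex.ext <;> simp [him]
    have h1 : aeval z.re p = 0 := by
      rw [hzr] at hz'
      have h2 : aeval ((algebraMap ℝ ℂ) z.re) p = 0 := hz'
      rw [aeval_algebraMap_apply] at h2
      exact (algebraMap ℝ ℂ).injective (by rw [h2, map_zero])
    have h2 : (X - C z.re) ∣ p := by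
      rw [dvd_iff_isRoot, IsRoot.def]
      rwa [coe_aeval_eq_eval] at h1
    have h3 := key _ h2 (not_isUnit_X_sub_C _)
    rw [map_sub, aeval_X, aeval_C] at h3
    have h4 : w = (z.re : ℂ) := sub_eq_zero.1 h3
    rw [h4, ← hzr]
  · have h1 := quadratic_dvd_of_aeval_eq_zero_im_ne_zero p hz' him
    have h2 := key _ h1 (by
      intro hu
      have := natDegree_eq_zero_of_isUnit hu
      have h3 : (X ^ 2 - C (2 * z.re) * X + C (‖z‖ ^ 2) : ℝ[X]).natDegree = 2 := by
        compute_degree!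
      omega)
    simp only [map_add, map_sub, map_mul, map_pow, aeval_X, aeval_C] at h2
    -- w is z or its conjugate
    have h3 : (w - z) * (w - (starRingEnd ℂ) z) = 0 := by
      have h4 : z + (starRingEnd ℂ) z = ((2 * z.re : ℝ) : ℂ) := Complex.add_conj z
      have h5 : z * (starRingEnd ℂ) z = ((‖z‖ ^ 2 : ℝ) : ℂ) := by
        rw [Complex.mul_conj, Complex.normSq_eq_norm_sq]
      have h6 : (w - z) * (w - (starRingEnd ℂ) z) =
          w ^ 2 - (z + (starRingEnd ℂ) z) * w + z * (starRingEnd ℂ) z := by ring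
      rw [h6, h4, h5]
      simpa using h2
    rcases mul_eq_zero.1 h3 with h | h
    · rw [sub_eq_zero.1 h]
    · rw [sub_eq_zero.1 h, Complex.norm_conj]

/-- factorization of a real polynomial without roots on the unit circle -/
lemma factor (p : ℝ[X]) (hp0 : p ≠ 0)
    (hp : ∀ μ : ℂ, (p.map (algebraMap ℝ ℂ)).IsRoot μ → ‖μ‖ ≠ 1) :
    ∃ a b : ℝ[X], p = a * b ∧ (∀ μ : ℂ, (a.map (algebraMap ℝ ℂ)).IsRoot μ → ‖μ‖ < 1) ∧
      (∀ μ : ℂ, (b.map (algebraMap ℝ ℂ)).IsRoot μ → 1 < ‖μ‖) := by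
  classical
  revert hp hp0
  refine WfDvdMonoid.induction_on_irreducible p ?_ ?_ ?_
  · intro h
    exact absurd rfl h
  · intro u hu _ _
    refine ⟨u, 1, (mul_one u).symm, fun μ hμ => ?_, fun μ hμ => ?_⟩
    · have h1 : IsUnit (aeval μ u) := hu.map (aeval μ)
      rw [IsRoot.def, eval_map_algebraMap] at hμ
      rw [hμ] at h1
      exact absurd h1 not_isUnit_zero
    · rw [IsRoot.def, Polynomial.map_one, eval_one] at hμ
      exact absurd hμ one_ne_zero
  · intro q i hq hi ih _ hr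
    obtain ⟨a, b, hab, ha, hb⟩ := ih hq fun μ hμ => hr μ (by
      rw [IsRoot.def, Polynomial.map_mul, eval_mul, IsRoot.def.1 hμ, mul_zero])
    have hroot : ∀ μ : ℂ, ((i * q).map (algebraMap ℝ ℂ)).IsRoot μ ↔
        (i.map (algebraMap ℝ ℂ)).IsRoot μ ∨ (q.map (algebraMap ℝ ℂ)).IsRoot μ := by
      intro μ
      rw [IsRoot.def, IsRoot.def, IsRoot.def, Polynomial.map_mul, eval_mul, mul_eq_zero]
    have hmul : ∀ (c d : ℝ[X]) (μ : ℂ), ((c * d).map (algebraMap ℝ ℂ)).IsRoot μ →
        (c.map (algebraMap ℝ ℂ)).IsRoot μ ∨ (d.map (algebraMap ℝ ℂ)).IsRoot μ := by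
      intro c d μ h
      rwa [IsRoot.def, Polynomial.map_mul, eval_mul, mul_eq_zero] at h
    obtain ⟨z, hz⟩ : ∃ z : ℂ, (i.map (algebraMap ℝ ℂ)).IsRoot z := by
      refine IsAlgClosed.exists_root _ ?_
      rw [degree_map]
      exact (degree_pos_of_irreducible hi).ne'
    rcases lt_or_gt_of_ne (hr z ((hroot z).2 (Or.inl hz))) with hz1 | hz1
    · refine ⟨i * a, b, by rw [hab, mul_assoc], fun μ hμ => ?_, hb⟩
      rcases hmul _ _ _ hμ with h | h
      · rw [irred_roots hi h hz]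
        exact hz1
      · exact ha μ h
    · refine ⟨a, i * b, by rw [hab]; ring, ha, fun μ hμ => ?_⟩
      rcases hmul _ _ _ hμ with h | h
      · rw [irred_roots hi h hz]
        exact hz1
      · exact hb μ h

lemma coprime_of {a b : ℝ[X]} (ha : ∀ μ : ℂ, (a.map (algebraMap ℝ ℂ)).IsRoot μ → ‖μ‖ < 1)
    (hb : ∀ μ : ℂ, (b.map (algebraMap ℝ ℂ)).IsRoot μ → 1 < ‖μ‖) : IsCoprime a b := by
  rw [Polynomial.isCoprime_iff_aeval_ne_zero_of_isAlgClosed ℝ ℂ]
  intro μ
  by_contra hcon
  push Not at hcon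
  have h1 := ha μ (by rw [IsRoot.def, eval_map_algebraMap]; exact hcon.1)
  have h2 := hb μ (by rw [IsRoot.def, eval_map_algebraMap]; exact hcon.2)
  linarith

section

variable {E : Type*} [NormedAddCommGroup E] [NormedSpace ℝ E] [FiniteDimensional ℝ E]

lemma vec_decay (A : E →ₗ[ℝ] E) {a : ℝ[X]}
    (ha : ∀ μ : ℂ, (a.map (algebraMap ℝ ℂ)).IsRoot μ → ‖μ‖ < 1) {v : E} (hv : aeval A a v = 0) :
    Tendsto (fun k : ℕ => (A ^ k) v) atTop (𝓝 0) := by
  have hcomm : ∀ x, aeval A a (A x) = A (aeval A a x) := by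
    intro x
    have h1 : aeval A a * A = A * aeval A a := by
      have h2 : aeval A (a * X) = aeval A (X * a) := by rw [mul_comm]
      rwa [map_mul, map_mul, aeval_X] at h2
    exact LinearMap.congr_fun h1 x
  let W : Submodule ℝ E := LinearMap.ker (aeval A a)
  have hW : ∀ x ∈ W, A x ∈ W := by
    intro x hx
    rw [LinearMap.mem_ker] at hx ⊢
    rw [hcomm, hx, map_zero]
  let T : W →ₗ[ℝ] W := A.restrict hW
  have h1 : A ∘ₗ W.subtype = W.subtype ∘ₗ T := by
    ext x
    rfl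
  have h2 : aeval T a = 0 := by
    have h3 := aeval_inter h1 a
    ext x
    have h4 := LinearMap.congr_fun h3 x
    have h5 : aeval A a (x : E) = 0 := x.2
    rw [LinearMap.comp_apply, LinearMap.comp_apply, Submodule.subtype_apply, h5] at h4
    exact h4.symm
  have h3 := lin_decay T a h2 ha ⟨v, hv⟩
  have h4 : ∀ k : ℕ, (((T ^ k) ⟨v, hv⟩ : W) : E) = (A ^ k) v := by
    intro k
    induction k with
    | zero => rfl
    | succ k ih =>
      rw [pow_succ', pow_succ', Module.End.mul_apply, Module.End.mul_apply, ← ih]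
      rfl
  have h5 := (continuous_subtype_val.tendsto (0 : W)).comp h3
  exact h5.congr h4

lemma aeval_reflect {A B : Module.End ℝ E} (h : B * A = 1) (N : ℕ) (f : ℝ[X])
    (hf : f.natDegree ≤ N) : aeval B (reflect N f) = B ^ N * aeval A f := by
  have hpow : ∀ n : ℕ, B ^ n * A ^ n = 1 := by
    intro n
    induction n with
    | zero => rw [pow_zero, pow_zero, one_mul]
    | succ n ih =>
      rw [pow_succ, pow_succ', mul_assoc, ← mul_assoc B, h, one_mul, ih]
  revert f
  refine induction_with_natDegree_le _ N ?_ ?_ ?_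
  · simp
  · intro n r _ hn
    rw [reflect_C_mul_X_pow, revAt_le hn, map_mul, map_mul, aeval_C, map_pow, map_pow, aeval_X,
      aeval_X, aeval_C]
    obtain ⟨m, rfl⟩ := Nat.exists_eq_add_of_le hn
    rw [Nat.add_sub_cancel_left, Nat.add_comm n m, pow_add, mul_assoc]
    rw [← mul_assoc (B ^ n), ← Algebra.commutes r (B ^ n), mul_assoc, hpow, mul_one,
      ← Algebra.commutes r (B ^ m)]
  · intro f g _ _ hf hg
    rw [reflect_add, map_add, map_add, hf, hg, mul_add]

/-- **The splitting of a hyperbolic linear map.** -/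
theorem split (A : E ≃ₗ[ℝ] E) (h : HypLin (A : E →ₗ[ℝ] E)) :
    ∃ P : E →ₗ[ℝ] E, (∀ v, P (A v) = A (P v)) ∧ (∀ v, P (P v) = P v) ∧
      (∀ v, Tendsto (fun k : ℕ => ((A : E →ₗ[ℝ] E) ^ k) (P v)) atTop (𝓝 0)) ∧
      (∀ v, Tendsto (fun k : ℕ => ((A.symm : E →ₗ[ℝ] E) ^ k) (v - P v)) atTop (𝓝 0)) := by
  obtain ⟨a, b, hab, ha, hb⟩ := factor _ (LinearMap.charpoly_monic (A : E →ₗ[ℝ] E)).ne_zero h
  obtain ⟨u, w, huw⟩ := coprime_of ha hb
  have hCH : aeval (A : E →ₗ[ℝ] E) (a * b) = 0 := by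
    rw [← hab]
    exact LinearMap.aeval_self_charpoly _
  have hP1 : ∀ v, v - aeval (A : E →ₗ[ℝ] E) (w * b) v = aeval (A : E →ₗ[ℝ] E) (u * a) v := by
    intro v
    have h1 := congrArg (fun q => aeval (A : E →ₗ[ℝ] E) q v) huw
    simp only [map_add, map_one, LinearMap.add_apply, Module.End.one_apply] at h1
    rw [sub_eq_iff_eq_add]
    exact h1.symm
  refine ⟨aeval (A : E →ₗ[ℝ] E) (w * b), fun v => ?_, fun v => ?_, fun v => ?_, fun v => ?_⟩
  · have h1 : aeval (A : E →ₗ[ℝ] E) ((w * b) * X) = aeval (A : E →ₗ[ℝ] E) (X * (w * b)) := by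
      rw [mul_comm]
    rw [map_mul, map_mul _ X, aeval_X] at h1
    exact LinearMap.congr_fun h1 v
  · have h1 : aeval (A : E →ₗ[ℝ] E) ((u * a) * (w * b)) = 0 := by
      rw [show (u * a) * (w * b) = (u * w) * (a * b) by ring, map_mul, hCH, mul_zero]
    have h2 := hP1 (aeval (A : E →ₗ[ℝ] E) (w * b) v)
    have h3 : aeval (A : E →ₗ[ℝ] E) (u * a) (aeval (A : E →ₗ[ℝ] E) (w * b) v) = 0 := by
      rw [← Module.End.mul_apply, ← map_mul, h1]
      rfl
    rw [h3, sub_eq_zero] at h2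
    exact h2.symm
  · refine vec_decay _ ha ?_
    have h1 : aeval (A : E →ₗ[ℝ] E) (a * (w * b)) = 0 := by
      rw [show a * (w * b) = w * (a * b) by ring, map_mul, hCH, mul_zero]
    rw [map_mul] at h1
    exact LinearMap.congr_fun h1 v
  · rw [hP1]
    refine vec_decay (a := reverse b) _ ?_ ?_
    · intro μ hμ
      by_cases h0 : μ = 0
      · rw [h0, norm_zero]
        exact one_pos
      · have h1 : eval₂ (algebraMap ℝ ℂ) μ (reverse b) = 0 := by
          rwa [IsRoot.def, eval_map] at hμ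
        let _ : Invertible (μ⁻¹) := ⟨μ, mul_inv_cancel₀ h0, inv_mul_cancel₀ h0⟩
        have h2 := (eval₂_reverse_eq_zero_iff (algebraMap ℝ ℂ) μ⁻¹ b).1 h1
        have h3 := hb μ⁻¹ (by rwa [IsRoot.def, eval_map])
        rw [norm_inv] at h3
        exact (one_lt_inv₀ (norm_pos_iff.2 h0)).1 h3
    · have hBA : (A.symm : E →ₗ[ℝ] E) * (A : E →ₗ[ℝ] E) = 1 := by
        ext x
        exact A.symm_apply_apply x
      have h1 := aeval_reflect hBA b.natDegree b le_rfl
      have h2 : aeval (A.symm : E →ₗ[ℝ] E) (reverse b) =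
        (A.symm : E →ₗ[ℝ] E) ^ b.natDegree * aeval (A : E →ₗ[ℝ] E) b := h1
      have h3 : aeval (A : E →ₗ[ℝ] E) (b * (u * a)) = 0 := by
        rw [show b * (u * a) = u * (a * b) by ring, map_mul, hCH, mul_zero]
      rw [map_mul] at h3
      rw [h2, Module.End.mul_apply]
      have h4 := LinearMap.congr_fun h3 v
      rw [Module.End.mul_apply] at h4
      rw [h4, LinearMap.zero_apply, map_zero]

end

end Pool.Agent.W5h63.AX
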