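import Mathlib
import Pool.Agent.H66.L.T9f66d723.W5h63.AX.Spl
import Pool.Agent.H66.L.T9f66d723.W5h63.AX.Defs

/-! Hyperbolicity from quadratic forms. -/

set_option autoImplicit false
set_option linter.unusedSectionVars false
set_option maxSynthPendingDepth 3

open Filter Topology Set Metric
open scoped ContDiff Manifold

noncomputable section

namespace Pool.Agent.W5h63.AX

open Pool.Agent.R774.Cl Pool.Agent.R774.ClStmt Pool.Agent.H718R2.G Pool.Agent.R775.HL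
  Pool.Agent.TH80.OMS

universe u

variable {n m : ℕ} {N : Type u} [TopologicalSpace N] [ChartedSpace (V n) N] [IsManifold (𝓡 n) ∞ N]
  {F F' : N → N} {K : Set N} {e : N → V m} {b : N → V m →L[ℝ] V m →L[ℝ] ℝ}

lemma est_shift (hF : ContMDiff (𝓡 n) (𝓡 n) 1 F) (he : ContMDiff (𝓡 n) (𝓡 m) 1 e) (x : N)
    (v : V n) : v ∈ Est e F x ↔ dr (V n) (V n) F x v ∈ Est (n := n) e F (F x) := by
  have h1 : ∀ k : ℕ, dr (V n) (V m) (fun y => e (F^[k] y)) (F x) (dr (V n) (V n) F x v) =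
      dr (V n) (V m) (fun y => e (F^[k + 1] y)) x v := by
    intro k
    have h2 : (fun y => e (F^[k + 1] y)) = fun y => (fun z => e (F^[k] z)) (F y) := by
      funext y
      rw [Function.iterate_succ_apply]
    rw [h2, dr_comp (E₁ := V n) (E₂ := V n) (E₃ := V m) (g := fun z => e (F^[k] z)) (f := F)
      ((he.comp (cmd_iter hF k)).mdifferentiableAt one_ne) (hF.mdifferentiableAt one_ne)]
    rfl
  show Tendsto _ _ _ ↔ Tendsto _ _ _
  simp only [h1]
  exact (tendsto_add_atTop_iff_nat (f := fun k : ℕ =>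
    dr (V n) (V m) (fun y => e (F^[k] y)) x v) 1).symm

lemma Cone.isClosed_Est [CompactSpace N] (h : Cone n F K e b) :
    IsClosed {p : N × V m | p.1 ∈ K ∧ ∃ v ∈ Est (n := n) e F p.1, dr (V n) (V m) e p.1 v = p.2} := by
  classical
  rw [isClosed_iff_ultrafilter]
  rintro ⟨x, w⟩ l hl hS
  have h1 : ∀ p : N × V m, p ∈ {p : N × V m | p.1 ∈ K ∧ ∃ v ∈ Est (n := n) e F p.1,
      dr (V n) (V m) e p.1 v = p.2} → ∃ v, v ∈ Est (n := n) e F p.1 ∧
        dr (V n) (V m) e p.1 v = p.2 := fun p hp => hp.2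
  choose! s hs1 hs2 using h1
  have hlS : ∀ᶠ p in (l : Filter (N × V m)), p ∈ {p : N × V m | p.1 ∈ K ∧
      ∃ v ∈ Est (n := n) e F p.1, dr (V n) (V m) e p.1 v = p.2} := hS
  have hl1 : Tendsto (fun p : N × V m => p.1) (l : Filter (N × V m)) (𝓝 x) :=
    (continuous_fst.tendsto (x, w)).mono_left hl
  have hl2 : Tendsto (fun p : N × V m => p.2) (l : Filter (N × V m)) (𝓝 w) :=
    (continuous_snd.tendsto (x, w)).mono_left hl
  have hxK : x ∈ K := h.closed.mem_of_tendsto hl1 (hlS.mono fun p hp => hp.1)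
  obtain ⟨t, ht1, ht2⟩ := h.closed_Est (l := (l : Filter (N × V m))) (p := fun p => p.1)
    (s := s) hxK (hlS.mono fun p hp => hp.1) (hlS.mono fun p hp => hs1 p hp) hl1
    (hl2.congr' (hlS.mono fun p hp => (hs2 p hp).symm))
  exact ⟨hxK, t, ht1, ht2⟩

lemma Cone.contracted [CompactSpace N] (h : Cone n F K e b) (hF' : ContMDiff (𝓡 n) (𝓡 n) 1 F') :
    ∃ A μ : ℝ, 0 < A ∧ 0 < μ ∧ μ < 1 ∧ ∀ A' μ' : ℝ, A ≤ A' → μ ≤ μ' →
      Contracted n F K e (Est e F) A' μ' := by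
  obtain ⟨A, μ, hA, hμ0, hμ1, hdec⟩ := h.decay
  refine ⟨A, μ, hA, hμ0, hμ1, fun A' μ' hA' hμ' => ⟨h.inv,
    fun x _ v => est_shift h.smooth h.imm.smooth x v, h.isClosed_Est, fun x hx v hv k => ?_⟩⟩
  refine (hdec x hx v hv k).trans ?_
  show A * μ ^ k * ‖dr (V n) (V m) e x v‖ ≤ A' * μ' ^ k * ‖dr (V n) (V m) e x v‖
  have hA0 : 0 ≤ A' := hA.le.trans hA'
  gcongr

/-- **Hyperbolicity from a strictly increasing quadratic form and hyperbolic periodic points.** -/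
theorem Cone.isHyperbolic [CompactSpace N] {r : ℕ∞} (hr : 1 ≤ r) {F : DiffM n N r}
    (h : Cone n F K e b) (hK' : ∀ x ∈ K, F.symm x ∈ K) {P : Set N} (hP : P ⊆ K)
    (hKP : K ⊆ closure P) (hper : ∀ p ∈ P, ∃ j : ℕ, 1 ≤ j ∧ F^[j] p = p ∧
      HypLin (dr (V n) (V n) F^[j] p : V n →ₗ[ℝ] V n)) : IsHyperbolic n F F.symm K := by
  have hF' : ContMDiff (𝓡 n) (𝓡 n) 1 F.symm :=
    F.symm.contMDiff_toFun.of_le (by exact_mod_cast hr)
  have hl : ∀ x, F.symm (F x) = x := F.symm_apply_apply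
  have hrr : ∀ x, F (F.symm x) = x := F.apply_symm_apply
  have h' : Cone n F.symm K e (fun y => - b y) := h.symm hF' hrr hK'
  obtain ⟨A, μ, hA, hμ0, hμ1, hdec⟩ := h.contracted hF'
  obtain ⟨A', μ', hA', hμ0', hμ1', hdec'⟩ := h'.contracted h.smooth
  have hspl : ∀ x ∈ K, ∀ v : V n, ∃ s ∈ Est (n := n) e F x, ∃ u ∈ Est (n := n) e F.symm x,
      s + u = v := by
    intro x hx v
    refine h.split_closure h' hP (fun p hp v => ?_) (hKP hx) v
    obtain ⟨j, hj, hpj, hyp⟩ := hper p hp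
    exact h.split_per h' hl hrr (hP hp) hj hpj hyp v
  refine ⟨m, e, Est e F, Est e F.symm, max A A', max μ μ', h.imm.smooth, h.imm.inj,
    lt_of_lt_of_le hμ0 (le_max_left _ _), max_lt hμ1 hμ1', fun x hx => ⟨?_, ?_⟩,
    hdec _ _ (le_max_left _ _) (le_max_left _ _), hdec' _ _ (le_max_right _ _) (le_max_right _ _)⟩
  · rw [Submodule.disjoint_def]
    intro v hv hv'
    by_contra hv0
    have h1 := (h.mem_Est hx).1 hv 1
    have h2 := (h'.mem_Est hx).1 hv' 0
    have h3 := h.incr x hx v hv0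
    rw [Function.iterate_one] at h1
    have h4 : dr (V n) (V n) F.symm^[0] x v = v := dr_id x v
    rw [h4, quad_neg] at h2
    have h5 : quad e b (F.symm^[0] x) v = quad e b x v := rfl
    rw [h5] at h2
    linarith
  · rw [codisjoint_iff, Submodule.eq_top_iff']
    intro v
    obtain ⟨s, hs, u, hu, hsu⟩ := hspl x hx v
    exact Submodule.mem_sup.2 ⟨s, hs, u, hu, hsu⟩

end Pool.Agent.W5h63.AX
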